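import Pool.Agent.R92.Star.Main
import Pool.Agent.Y806.DF.D
import Pool.Agent.TH404.Tor.Final

set_option autoImplicit false
set_option linter.unusedSectionVars false
set_option linter.dupNamespace false

/-! The conclusion of the polynomial Freiman-Ruzsa conjecture for star-shaped sets. -/

namespace Pool.Agent.R92.Star

open Finset
open Pool.Agent.Y806.DF
open scoped Pointwise

universe u

/-- The conclusion of Q1 for the set `A`, with the constant `C` and the doubling `K`: `A` is covered by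
`C K ^ C` translates of a centred convex coset progression of dimension at most `C log (2 K)` and
volume at most `|A|`. -/
def Concl {Γ : Type*} [AddCommGroup Γ] (C K : ℝ) (A : Finset Γ) : Prop :=
  ∃ (d : ℕ) (B : Set (Fin d → ℝ)) (ψ : (Fin d → ℤ) →+ Γ) (H : AddSubgroup Γ) (T : Finset Γ),
    (d : ℝ) ≤ C * Real.log (2 * K) ∧ Body B ∧ Finite H ∧
    (lat B).ncard * Nat.card H ≤ A.card ∧ (T.card : ℝ) ≤ C * K ^ C ∧ Cov B ψ H T A

theorem concl_of_data {Γ : Type*} [AddCommGroup Γ] [DecidableEq Γ] {n : ℕ} (hn1 : 1 ≤ n) {K : ℝ}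
    {A : Finset Γ} (hA : A.Nonempty) (hK : ((A + A).card : ℝ) ≤ K * A.card)
    {d : ℕ} {X : Finset (Fin d → ℤ)} {ψ : (Fin d → ℤ) →+ Γ} {H : AddSubgroup Γ} {g : Γ}
    (hD' : Data ((n : ℝ) * K ^ n) A X ψ H g) :
    Concl ((5000 * n ^ 5000 : ℕ) : ℝ) K A := by
  have hn1r : (1 : ℝ) ≤ n := by exact_mod_cast hn1
  have hK1 := one_le_K hA hK
  have hK0 : 0 < K := by linarith
  have hKK : K ≤ (n : ℝ) * K ^ n := by
    calc K = 1 * K ^ 1 := by rw [pow_one, one_mul]
      _ ≤ n * K ^ n := mul_le_mul hn1r (pow_le_pow_right₀ hK1 hn1) (by positivity) (by positivity)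
  obtain ⟨r, B, θ, H', T, h1, h2, h3, h4, h5, h6⟩ := main hA
    (hK.trans (mul_le_mul_of_nonneg_right hKK (Nat.cast_nonneg _))) hD'
  have hn5000 : n ≤ n ^ 5000 := by
    calc n = n ^ 1 := (pow_one n).symm
      _ ≤ n ^ 5000 := Nat.pow_le_pow_right hn1 (by norm_num)
  have hn5000r : (n : ℝ) ≤ ((n ^ 5000 : ℕ) : ℝ) := by exact_mod_cast hn5000
  have hlog0 : 0 ≤ Real.log (2 * K) := Real.log_nonneg (by linarith)
  refine ⟨r, B, θ, H', T, ?_, h2, h3, h4, ?_, h6⟩
  · have h7 : 2 * ((n : ℝ) * K ^ n) ≤ (2 * K) ^ (2 * n) := by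
      have e1 : 2 * (n : ℝ) ≤ 2 ^ (2 * n) := by
        have : 2 * n < 2 ^ (2 * n) := Nat.lt_two_pow_self
        exact_mod_cast this.le
      have e2 : K ^ n ≤ K ^ (2 * n) := pow_le_pow_right₀ hK1 (by omega)
      calc 2 * ((n : ℝ) * K ^ n) = (2 * (n : ℝ)) * K ^ n := by ring
        _ ≤ 2 ^ (2 * n) * K ^ (2 * n) := mul_le_mul e1 e2 (by positivity) (by positivity)
        _ = (2 * K) ^ (2 * n) := (mul_pow _ _ _).symm
    have h8 : Real.log (2 * ((n : ℝ) * K ^ n)) ≤ (2 * n : ℕ) * Real.log (2 * K) := by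
      rw [← Real.log_pow]
      exact Real.log_le_log (by positivity) h7
    push_cast at h8
    calc (r : ℝ) ≤ 500 * Real.log (2 * ((n : ℝ) * K ^ n)) := h1
      _ ≤ 500 * (2 * n * Real.log (2 * K)) := mul_le_mul_of_nonneg_left h8 (by norm_num)
      _ = (1000 * n) * Real.log (2 * K) := by ring
      _ ≤ ((5000 * n ^ 5000 : ℕ) : ℝ) * Real.log (2 * K) := by
        refine mul_le_mul_of_nonneg_right ?_ hlog0
        rw [Nat.cast_mul]
        have : ((5000 : ℕ) : ℝ) = 5000 := by norm_num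
        rw [this]
        linarith
  · have h7 : ((n : ℝ) * K ^ n) ^ 5000 = (n : ℝ) ^ 5000 * K ^ (n * 5000) := by
      rw [mul_pow, ← pow_mul]
    have h8 : ((n * 5000 : ℕ) : ℝ) ≤ ((5000 * n ^ 5000 : ℕ) : ℝ) := by
      exact_mod_cast (by rw [mul_comm]; exact Nat.mul_le_mul_left _ hn5000 :
        n * 5000 ≤ 5000 * n ^ 5000)
    calc (T.card : ℝ) ≤ 5000 * ((n : ℝ) * K ^ n) ^ 5000 := h5
      _ = (5000 * (n : ℝ) ^ 5000) * K ^ (n * 5000) := by rw [h7, mul_assoc]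
      _ ≤ (5000 * (n : ℝ) ^ 5000) * K ^ ((5000 * n ^ 5000 : ℕ) : ℝ) :=
        mul_le_mul_of_nonneg_left (pow_le_rpow hK1 h8) (by positivity)
      _ = ((5000 * n ^ 5000 : ℕ) : ℝ) * K ^ ((5000 * n ^ 5000 : ℕ) : ℝ) := by
        congr 1
        rw [Nat.cast_mul, Nat.cast_pow]
        norm_num

theorem data_of_concl {Γ : Type*} [AddCommGroup Γ] [DecidableEq Γ] {C : ℝ} {n : ℕ} (hn1 : 1 ≤ n)
    (hn : C ≤ n) (hCK : ∀ K : ℝ, 1 ≤ K → C * K ^ C ≤ n * K ^ n) {K : ℝ} {A : Finset Γ}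
    (hA : A.Nonempty) (hK : ((A + A).card : ℝ) ≤ K * A.card) (h : Concl C K A) :
    ∃ (d : ℕ) (X : Finset (Fin d → ℤ)) (ψ : (Fin d → ℤ) →+ Γ) (H : AddSubgroup Γ) (g : Γ),
      Data (((4 ^ n : ℕ) : ℝ) * K ^ (4 ^ n : ℕ)) A X ψ H g := by
  classical
  have hK1 := one_le_K hA hK
  have hK0 : 0 < K := by linarith
  have hlog0 : 0 ≤ Real.log (2 * K) := Real.log_nonneg (by linarith)
  obtain ⟨d, B, ψ, H, T, hd, hB, hH, hvol, hT, hcov⟩ := h
  have hsym : Sym B := ⟨hB.1, hB.2.1, hB.2.2.2, hB.2.2.1.mono interior_subset⟩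
  have hfin : (lat B).Finite := lat_finite hB.2.1.isBounded
  -- numbers
  have h4n : 2 * n ≤ 4 ^ n := by
    calc 2 * n ≤ 2 ^ (2 * n) := Nat.lt_two_pow_self.le
      _ = 4 ^ n := by rw [pow_mul]; norm_num
  have hbig : ((n : ℕ) : ℝ) * K ^ n ≤ ((4 ^ n : ℕ) : ℝ) * K ^ (4 ^ n : ℕ) := by
    have e1 : ((n : ℕ) : ℝ) ≤ ((4 ^ n : ℕ) : ℝ) := by exact_mod_cast (by omega : n ≤ 4 ^ n)
    exact mul_le_mul e1 (pow_le_pow_right₀ hK1 (by omega)) (by positivity) (Nat.cast_nonneg _)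
  have hone : (1 : ℝ) ≤ ((4 ^ n : ℕ) : ℝ) * K ^ (4 ^ n : ℕ) := by
    have e1 : (1 : ℝ) ≤ ((4 ^ n : ℕ) : ℝ) := by exact_mod_cast (by omega : 1 ≤ 4 ^ n)
    have e2 : (1 : ℝ) ≤ K ^ (4 ^ n : ℕ) := one_le_pow₀ hK1
    nlinarith
  have hdd : (4 : ℝ) ^ d ≤ ((4 ^ n : ℕ) : ℝ) * K ^ (4 ^ n : ℕ) := by
    have e1 : (d : ℝ) ≤ n * Real.log (2 * K) := hd.trans (mul_le_mul_of_nonneg_right hn hlog0)
    have e2 : Real.log 4 ≤ 2 := by
      rw [show (4 : ℝ) = 2 ^ 2 by norm_num, Real.log_pow]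
      have := Real.log_two_lt_d9
      push_cast
      linarith
    have e3 : Real.log ((4 : ℝ) ^ d) ≤ Real.log ((2 * K) ^ (2 * n)) := by
      rw [Real.log_pow, Real.log_pow]
      calc (d : ℝ) * Real.log 4 ≤ d * 2 := mul_le_mul_of_nonneg_left e2 (Nat.cast_nonneg _)
        _ ≤ (n * Real.log (2 * K)) * 2 := mul_le_mul_of_nonneg_right e1 (by norm_num)
        _ = ((2 * n : ℕ) : ℝ) * Real.log (2 * K) := by push_cast; ring
    have e4 : (4 : ℝ) ^ d ≤ (2 * K) ^ (2 * n) := (Real.log_le_log_iff (by positivity) (by positivity)).1 e3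
    calc (4 : ℝ) ^ d ≤ (2 * K) ^ (2 * n) := e4
      _ = ((4 ^ n : ℕ) : ℝ) * K ^ (2 * n) := by
        rw [mul_pow, pow_mul 2 2 n]
        push_cast
        norm_num
      _ ≤ ((4 ^ n : ℕ) : ℝ) * K ^ (4 ^ n : ℕ) :=
        mul_le_mul_of_nonneg_left (pow_le_pow_right₀ hK1 h4n) (Nat.cast_nonneg _)
  -- the popular translate
  obtain ⟨t, ht, ht2⟩ := pigeon T A A hA (fun t a => ∃ x ∈ hfin.toFinset, ∃ h ∈ H, a = t + ψ x + h)
    subset_rfl (by
      intro a ha
      obtain ⟨t, ht, x, hx, h, hh, e⟩ := hcov a ha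
      exact ⟨t, ht, x, (Set.Finite.mem_toFinset _).2 hx, h, hh, e⟩)
  refine ⟨d, hfin.toFinset, ψ, H, t, ⟨?_, hH, ?_, ?_, ?_, ?_⟩⟩
  · refine ⟨0, ?_⟩
    rw [Set.Finite.mem_toFinset]
    show re 0 ∈ B
    have : re (0 : Fin d → ℤ) = 0 := by funext i; simp [re]
    rw [this]
    exact hsym.zero
  · have h1 : (hfin.toFinset + hfin.toFinset).card ≤ num B 2 := by
      rw [num, Set.ncard_eq_toFinset_card _ (hsym.finite 2)]
      refine Finset.card_le_card ?_
      intro x hx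
      obtain ⟨a, ha, b, hb, rfl⟩ := Finset.mem_add.1 hx
      rw [Set.Finite.mem_toFinset] at ha hb ⊢
      have ha' : a ∈ lat ((1 : ℝ) • B) := by rw [one_smul]; exact ha
      have hb' : b ∈ lat ((1 : ℝ) • B) := by rw [one_smul]; exact hb
      have h2 := hsym.add (by norm_num) (by norm_num) ha' hb'
      norm_num at h2
      exact h2
    have h2 : num B 2 ≤ 4 ^ d * hfin.toFinset.card := by
      have h3 := num_double hsym (t := 1) (by norm_num)
      rw [mul_one] at h3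
      have h4 : num B 1 = hfin.toFinset.card := by
        rw [num, one_smul]
        exact Set.ncard_eq_toFinset_card _ hfin
      rwa [h4] at h3
    calc ((hfin.toFinset + hfin.toFinset).card : ℝ) ≤ ((4 ^ d * hfin.toFinset.card : ℕ) : ℝ) := by
          exact_mod_cast h1.trans h2
      _ = (4 : ℝ) ^ d * hfin.toFinset.card := by push_cast; rfl
      _ ≤ _ := mul_le_mul_of_nonneg_right hdd (Nat.cast_nonneg _)
  · have h1 : hull hfin.toFinset ⊆ (hfin.toFinset : Set (Fin d → ℤ)) := by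
      intro v hv
      rw [Finset.mem_coe, Set.Finite.mem_toFinset]
      refine convexHull_min ?_ hsym.conv hv
      rintro _ ⟨x, hx, rfl⟩
      rw [Finset.mem_coe, Set.Finite.mem_toFinset] at hx
      exact hx
    have h2 := Set.ncard_le_ncard h1 (Finset.finite_toSet _)
    rw [Set.ncard_coe_finset] at h2
    calc ((hull hfin.toFinset).ncard : ℝ) ≤ 1 * hfin.toFinset.card := by rw [one_mul]; exact_mod_cast h2
      _ ≤ _ := mul_le_mul_of_nonneg_right hone (Nat.cast_nonneg _)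
  · have h1 : (hfin.toFinset.card : ℝ) * Nat.card H ≤ 1 * A.card := by
      rw [one_mul]
      rw [Set.ncard_eq_toFinset_card _ hfin] at hvol
      exact_mod_cast hvol
    exact h1.trans (mul_le_mul_of_nonneg_right hone (Nat.cast_nonneg _))
  · have h1 : {a : Γ | a ∈ A ∧ ∃ x ∈ hfin.toFinset, ∃ h ∈ H, a = t + ψ x + h} =
        ((A.filter (fun a => ∃ x ∈ hfin.toFinset, ∃ h ∈ H, a = t + ψ x + h) : Finset Γ) : Set Γ) := by
      rw [Finset.coe_filter]
    rw [h1, Set.ncard_coe_finset]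
    have hT' : (T.card : ℝ) ≤ ((4 ^ n : ℕ) : ℝ) * K ^ (4 ^ n : ℕ) :=
      (hT.trans (hCK K hK1)).trans hbig
    calc (A.card : ℝ) ≤ T.card * (A.filter (fun a => ∃ x ∈ hfin.toFinset, ∃ h ∈ H, a = t + ψ x + h)).card := by
          exact_mod_cast ht2
      _ ≤ _ := mul_le_mul_of_nonneg_right hT' (Nat.cast_nonneg _)

/-- the box spanned by `0` and `x` -/
noncomputable def Bx {d : ℕ} (x : Fin d → ℤ) : Finset (Fin d → ℤ) :=
  Fintype.piFinset (fun i => Finset.Icc (min 0 (x i)) (max 0 (x i)))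

theorem mem_Bx {d : ℕ} {x y : Fin d → ℤ} : y ∈ Bx x ↔ ∀ i, Btw (y i) (x i) := by
  rw [Bx, Fintype.mem_piFinset]
  apply forall_congr'
  intro i
  rw [Finset.mem_Icc]
  unfold Btw
  omega

theorem card_Bx {d : ℕ} (x : Fin d → ℤ) : ((Bx x).card : ℝ) = ∏ i, (|(x i : ℝ)| + 1) := by
  rw [Bx, Fintype.card_piFinset]
  push_cast
  apply Finset.prod_congr rfl
  intro i _
  rw [Int.card_Icc]
  have : ((max 0 (x i) + 1 - min 0 (x i)).toNat : ℤ) = |x i| + 1 := by
    rw [Int.toNat_of_nonneg (by omega)]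
    rcases le_total 0 (x i) with h | h
    · rw [max_eq_right h, min_eq_left h, abs_of_nonneg h]; ring
    · rw [max_eq_left h, min_eq_right h, abs_of_nonpos h]; ring
  have h2 : (((max 0 (x i) + 1 - min 0 (x i)).toNat : ℤ) : ℝ) = ((|x i| + 1 : ℤ) : ℝ) := by rw [this]
  push_cast at h2
  exact h2

/-- the first coordinates -/
def pl {d e : ℕ} : (Fin (d + e) → ℤ) →+ (Fin d → ℤ) where
  toFun v := fun i => v (Fin.castAdd e i)
  map_zero' := rfl
  map_add' _ _ := rfl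

/-- the last coordinates -/
def pr {d e : ℕ} : (Fin (d + e) → ℤ) →+ (Fin e → ℤ) where
  toFun v := fun i => v (Fin.natAdd d i)
  map_zero' := rfl
  map_add' _ _ := rfl

theorem pp_inj {d e : ℕ} : Function.Injective (fun v : Fin (d + e) → ℤ => (pl v, pr v)) := by
  intro v w h
  simp only [Prod.mk.injEq] at h
  funext i
  refine Fin.addCases (fun j => ?_) (fun j => ?_) i
  · exact congrFun h.1 j
  · exact congrFun h.2 j

/-- the product of two sets of integer points -/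
noncomputable def prd {d e : ℕ} (P : Finset (Fin d → ℤ)) (X : Finset (Fin e → ℤ)) :
    Finset (Fin (d + e) → ℤ) :=
  (P ×ˢ X).image (fun p => Fin.append p.1 p.2)

theorem pl_append {d e : ℕ} (a : Fin d → ℤ) (b : Fin e → ℤ) : pl (Fin.append a b) = a := by
  funext i
  show Fin.append a b (Fin.castAdd e i) = a i
  rw [Fin.append_left]

theorem pr_append {d e : ℕ} (a : Fin d → ℤ) (b : Fin e → ℤ) : pr (Fin.append a b) = b := by
  funext i
  show Fin.append a b (Fin.natAdd d i) = b i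
  rw [Fin.append_right]

theorem mem_prd {d e : ℕ} {P : Finset (Fin d → ℤ)} {X : Finset (Fin e → ℤ)} {v : Fin (d + e) → ℤ} :
    v ∈ prd P X ↔ pl v ∈ P ∧ pr v ∈ X := by
  rw [prd, Finset.mem_image]
  constructor
  · rintro ⟨⟨a, b⟩, hab, rfl⟩
    have h := Finset.mem_product.1 hab
    rw [pl_append, pr_append]
    exact h
  · rintro ⟨h1, h2⟩
    refine ⟨(pl v, pr v), Finset.mem_product.2 ⟨h1, h2⟩, ?_⟩
    apply pp_inj
    show (pl (Fin.append (pl v) (pr v)), pr (Fin.append (pl v) (pr v))) = (pl v, pr v)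
    rw [pl_append, pr_append]

theorem card_prd {d e : ℕ} (P : Finset (Fin d → ℤ)) (X : Finset (Fin e → ℤ)) :
    (prd P X).card = P.card * X.card := by
  rw [prd, Finset.card_image_of_injective, Finset.card_product]
  rintro ⟨a, b⟩ ⟨a', b'⟩ h
  simp only at h
  have h1 : pl (Fin.append a b) = pl (Fin.append a' b') := by rw [h]
  have h2 : pr (Fin.append a b) = pr (Fin.append a' b') := by rw [h]
  rw [pl_append, pl_append] at h1
  rw [pr_append, pr_append] at h2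
  rw [h1, h2]

theorem prd_add {d e : ℕ} (P : Finset (Fin d → ℤ)) (X : Finset (Fin e → ℤ)) :
    prd P X + prd P X ⊆ prd (P + P) (X + X) := by
  intro v hv
  obtain ⟨a, ha, b, hb, rfl⟩ := Finset.mem_add.1 hv
  rw [mem_prd] at ha hb ⊢
  rw [map_add, map_add]
  exact ⟨Finset.add_mem_add ha.1 hb.1, Finset.add_mem_add ha.2 hb.2⟩

theorem hull_Bx {d : ℕ} (x : Fin d → ℤ) : hull (Bx x) ⊆ (Bx x : Set (Fin d → ℤ)) := by
  intro v hv
  have hconv : Convex ℝ (Set.Icc (fun i => ((min 0 (x i) : ℤ) : ℝ)) (fun i => ((max 0 (x i) : ℤ) : ℝ))) :=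
    convex_Icc _ _
  have h1 : re v ∈ Set.Icc (fun i => ((min 0 (x i) : ℤ) : ℝ)) (fun i => ((max 0 (x i) : ℤ) : ℝ)) := by
    refine convexHull_min ?_ hconv hv
    rintro _ ⟨y, hy, rfl⟩
    have hy' := Fintype.mem_piFinset.1 (Finset.mem_coe.1 hy)
    constructor
    · intro i
      have := (Finset.mem_Icc.1 (hy' i)).1
      show ((min 0 (x i) : ℤ) : ℝ) ≤ ((y i : ℤ) : ℝ)
      exact_mod_cast this
    · intro i
      have := (Finset.mem_Icc.1 (hy' i)).2
      show ((y i : ℤ) : ℝ) ≤ ((max 0 (x i) : ℤ) : ℝ)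
      exact_mod_cast this
  rw [Finset.mem_coe, Bx, Fintype.mem_piFinset]
  intro i
  rw [Finset.mem_Icc]
  constructor
  · have := h1.1 i
    have h2 : ((min 0 (x i) : ℤ) : ℝ) ≤ ((v i : ℤ) : ℝ) := this
    exact_mod_cast h2
  · have := h1.2 i
    have h2 : ((v i : ℤ) : ℝ) ≤ ((max 0 (x i) : ℤ) : ℝ) := this
    exact_mod_cast h2

theorem hull_prd {d e : ℕ} (P : Finset (Fin d → ℤ)) (X : Finset (Fin e → ℤ)) {v : Fin (d + e) → ℤ}
    (hv : v ∈ hull (prd P X)) : pl v ∈ hull P ∧ pr v ∈ hull X := by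
  let fl : (Fin (d + e) → ℝ) →ₗ[ℝ] (Fin d → ℝ) := LinearMap.funLeft ℝ ℝ (Fin.castAdd e)
  let fr : (Fin (d + e) → ℝ) →ₗ[ℝ] (Fin e → ℝ) := LinearMap.funLeft ℝ ℝ (Fin.natAdd d)
  constructor
  · have hc : Convex ℝ (fl ⁻¹' (convexHull ℝ (re '' (P : Set (Fin d → ℤ))))) :=
      (convex_convexHull ℝ _).linear_preimage fl
    have h1 : re v ∈ fl ⁻¹' (convexHull ℝ (re '' (P : Set (Fin d → ℤ)))) := by
      refine convexHull_min ?_ hc hv
      rintro _ ⟨y, hy, rfl⟩
      have hy' := (mem_prd.1 (Finset.mem_coe.1 hy)).1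
      exact subset_convexHull ℝ _ ⟨pl y, Finset.mem_coe.2 hy', rfl⟩
    exact h1
  · have hc : Convex ℝ (fr ⁻¹' (convexHull ℝ (re '' (X : Set (Fin e → ℤ))))) :=
      (convex_convexHull ℝ _).linear_preimage fr
    have h1 : re v ∈ fr ⁻¹' (convexHull ℝ (re '' (X : Set (Fin e → ℤ)))) := by
      refine convexHull_min ?_ hc hv
      rintro _ ⟨y, hy, rfl⟩
      have hy' := (mem_prd.1 (Finset.mem_coe.1 hy)).2
      exact subset_convexHull ℝ _ ⟨pr y, Finset.mem_coe.2 hy', rfl⟩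
    exact h1

theorem card_hull_prd {d e : ℕ} (x : Fin d → ℤ) (X : Finset (Fin e → ℤ)) :
    (hull (prd (Bx x) X)).ncard ≤ (Bx x).card * (hull X).ncard := by
  classical
  have hf := hull_finite X
  have h1 : (hull (prd (Bx x) X)).ncard ≤
      (((Bx x ×ˢ hf.toFinset : Finset ((Fin d → ℤ) × (Fin e → ℤ)))) :
        Set ((Fin d → ℤ) × (Fin e → ℤ))).ncard := by
    refine Set.ncard_le_ncard_of_injOn (fun v => (pl v, pr v)) ?_ ?_ (Finset.finite_toSet _)
    · intro v hv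
      have h := hull_prd _ _ hv
      rw [Finset.mem_coe, Finset.mem_product]
      exact ⟨Finset.mem_coe.1 (hull_Bx x h.1), (Set.Finite.mem_toFinset _).2 h.2⟩
    · intro v _ w _ h
      exact pp_inj h
  rw [Set.ncard_coe_finset, Finset.card_product, ← Set.ncard_eq_toFinset_card _ hf] at h1
  exact h1

/-- A star-shaped set which contains a large product of a box and a set with `Data` has `Data`. -/
theorem data_prd {G : Type*} [AddCommGroup G] [DecidableEq G] {d e : ℕ}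
    {A : Finset ((Fin d → ℤ) × G)} {K M L : ℝ} (hK1 : 1 ≤ K) (hM1 : 1 ≤ M) (hL1 : 1 ≤ L)
    (hK : ((A + A).card : ℝ) ≤ K * A.card)
    {x : Fin d → ℤ} {S : Finset G} (hS : S.Nonempty)
    (hbox : ∀ y : Fin d → ℤ, (∀ i, Btw (y i) (x i)) → ∀ g ∈ S, (y, g) ∈ A)
    (hbig : (A.card : ℝ) ≤ M * ((Bx x).card * S.card))
    {X : Finset (Fin e → ℤ)} {ψ : (Fin e → ℤ) →+ G} {H : AddSubgroup G} {g : G}
    (hD : Data L S X ψ H g) :
    ∃ (ψ' : (Fin (d + e) → ℤ) →+ (Fin d → ℤ) × G) (H' : AddSubgroup ((Fin d → ℤ) × G))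
      (g' : (Fin d → ℤ) × G), Data (K * M * L) A (prd (Bx x) X) ψ' H' g' := by
  classical
  have hHfin := hD.fin
  have hsub : Bx x ×ˢ S ⊆ A := by
    rintro ⟨y, s⟩ hy
    have h := Finset.mem_product.1 hy
    exact hbox y (mem_Bx.1 h.1) s h.2
  have hPne : (Bx x).Nonempty := ⟨0, mem_Bx.2 (fun i => by unfold Btw; simp; omega)⟩
  have hP0 : (0 : ℝ) < (Bx x).card := by exact_mod_cast hPne.card_pos
  have hS0 : (0 : ℝ) < S.card := by exact_mod_cast hS.card_pos
  have hX0 : (0 : ℝ) < X.card := by exact_mod_cast hD.ne.card_pos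
  have hPS : ((Bx x).card : ℝ) * S.card ≤ A.card := by
    have := Finset.card_le_card hsub
    rw [Finset.card_product] at this
    exact_mod_cast this
  have hA0 : (0 : ℝ) < A.card := lt_of_lt_of_le (by positivity) hPS
  -- the doubling of the box
  have hPP : (((Bx x) + (Bx x)).card : ℝ) ≤ K * M * (Bx x).card := by
    have h1 : ((Bx x + Bx x) ×ˢ (S + S)).card ≤ (A + A).card := by
      refine Finset.card_le_card ?_
      rintro ⟨y, s⟩ hy
      obtain ⟨h1, h2⟩ := Finset.mem_product.1 hy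
      obtain ⟨a, ha, b, hb, hab⟩ := Finset.mem_add.1 h1
      obtain ⟨p, hp, q, hq, hpq⟩ := Finset.mem_add.1 h2
      simp only at hab hpq
      rw [← hab, ← hpq]
      exact Finset.mem_add.2 ⟨(a, p), hsub (Finset.mem_product.2 ⟨ha, hp⟩), (b, q),
        hsub (Finset.mem_product.2 ⟨hb, hq⟩), rfl⟩
    rw [Finset.card_product] at h1
    have h2 : S.card ≤ (S + S).card := Finset.card_le_card_add_right hS
    have h3 : (Bx x + Bx x).card * S.card ≤ (A + A).card :=
      (Nat.mul_le_mul_left _ h2).trans h1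
    have h4 : (((Bx x) + (Bx x)).card : ℝ) * S.card ≤ (K * M * (Bx x).card) * S.card := by
      calc (((Bx x) + (Bx x)).card : ℝ) * S.card ≤ (A + A).card := by exact_mod_cast h3
        _ ≤ K * A.card := hK
        _ ≤ K * (M * ((Bx x).card * S.card)) := mul_le_mul_of_nonneg_left hbig (by linarith)
        _ = (K * M * (Bx x).card) * S.card := by ring
    exact le_of_mul_le_mul_right h4 hS0
  have hKM : 1 ≤ K * M := by nlinarith
  have hcardX : ((prd (Bx x) X).card : ℝ) = (Bx x).card * X.card := by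
    rw [card_prd]; push_cast; ring
  let ψ' : (Fin (d + e) → ℤ) →+ (Fin d → ℤ) × G := pl.prod (ψ.comp pr)
  have hψ' : ∀ v, ψ' v = (pl v, ψ (pr v)) := fun v => rfl
  let H' : AddSubgroup ((Fin d → ℤ) × G) := (⊥ : AddSubgroup (Fin d → ℤ)).prod H
  have hH'card : Nat.card H' = Nat.card H := by
    rw [Nat.card_congr (AddSubgroup.prodEquiv (⊥ : AddSubgroup (Fin d → ℤ)) H).toEquiv,
      Nat.card_prod]
    simp
  have hHpos : 0 < Nat.card H := Nat.card_pos
  have hH'fin : Finite H' := Nat.finite_of_card_ne_zero (by rw [hH'card]; omega)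
  refine ⟨ψ', H', (0, g), ⟨?_, hH'fin, ?_, ?_, ?_, ?_⟩⟩
  · obtain ⟨p, hp⟩ := hPne
    obtain ⟨q, hq⟩ := hD.ne
    exact ⟨Fin.append p q, mem_prd.2 (by rw [pl_append, pr_append]; exact ⟨hp, hq⟩)⟩
  · have h1 : ((prd (Bx x) X + prd (Bx x) X).card : ℝ) ≤ (Bx x + Bx x).card * (X + X).card := by
      have := Finset.card_le_card (prd_add (Bx x) X)
      rw [card_prd] at this
      exact_mod_cast this
    rw [hcardX]
    calc ((prd (Bx x) X + prd (Bx x) X).card : ℝ) ≤ (Bx x + Bx x).card * (X + X).card := h1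
      _ ≤ (K * M * (Bx x).card) * (L * X.card) :=
        mul_le_mul hPP hD.doubling (Nat.cast_nonneg _) (by positivity)
      _ = K * M * L * ((Bx x).card * X.card) := by ring
  · rw [hcardX]
    have h1 : ((hull (prd (Bx x) X)).ncard : ℝ) ≤ (Bx x).card * (hull X).ncard := by
      exact_mod_cast card_hull_prd x X
    calc ((hull (prd (Bx x) X)).ncard : ℝ) ≤ (Bx x).card * (hull X).ncard := h1
      _ ≤ (Bx x).card * (L * X.card) := mul_le_mul_of_nonneg_left hD.dense hP0.le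
      _ = 1 * (L * ((Bx x).card * X.card)) := by ring
      _ ≤ (K * M) * (L * ((Bx x).card * X.card)) := mul_le_mul_of_nonneg_right hKM (by positivity)
      _ = K * M * L * ((Bx x).card * X.card) := by ring
  · rw [hcardX, hH'card]
    calc ((Bx x).card : ℝ) * X.card * Nat.card H = (Bx x).card * (X.card * Nat.card H) := by ring
      _ ≤ (Bx x).card * (L * S.card) := mul_le_mul_of_nonneg_left hD.size hP0.le
      _ = L * ((Bx x).card * S.card) := by ring
      _ ≤ L * A.card := mul_le_mul_of_nonneg_left hPS (by linarith)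
      _ = 1 * (L * A.card) := by ring
      _ ≤ (K * M) * (L * A.card) := mul_le_mul_of_nonneg_right hKM (by positivity)
      _ = K * M * L * A.card := by ring
  · set S1 := S.filter (fun a => ∃ x ∈ X, ∃ h ∈ H, a = g + ψ x + h) with hS1
    set A1 := A.filter (fun a => ∃ v ∈ prd (Bx x) X, ∃ h ∈ H', a = (0, g) + ψ' v + h) with hA1
    have h1 : {a : G | a ∈ S ∧ ∃ x ∈ X, ∃ h ∈ H, a = g + ψ x + h} = (S1 : Set G) := by
      ext a
      rw [hS1, Finset.coe_filter]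
    have h2 : {a : (Fin d → ℤ) × G | a ∈ A ∧ ∃ v ∈ prd (Bx x) X, ∃ h ∈ H',
        a = (0, g) + ψ' v + h} = (A1 : Set ((Fin d → ℤ) × G)) := by
      ext a
      rw [hA1, Finset.coe_filter]
    have hm := hD.meet
    rw [h1, Set.ncard_coe_finset] at hm
    rw [h2, Set.ncard_coe_finset]
    have h3 : (Bx x ×ˢ S1).card ≤ A1.card := by
      refine Finset.card_le_card ?_
      rintro ⟨y, s⟩ hy
      obtain ⟨hy1, hy2⟩ := Finset.mem_product.1 hy
      obtain ⟨hs, x', hx', h, hh, he⟩ := Finset.mem_filter.1 hy2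
      refine Finset.mem_filter.2 ⟨hsub (Finset.mem_product.2 ⟨hy1, hs⟩), Fin.append y x', ?_, (0, h), ?_, ?_⟩
      · rw [mem_prd, pl_append, pr_append]
        exact ⟨hy1, hx'⟩
      · exact AddSubgroup.mem_prod.2 ⟨AddSubgroup.mem_bot.2 rfl, hh⟩
      · rw [hψ', pl_append, pr_append, Prod.mk_add_mk, Prod.mk_add_mk, zero_add, add_zero]
        exact congrArg (Prod.mk y) he
    rw [Finset.card_product] at h3
    have h3' : ((Bx x).card : ℝ) * S1.card ≤ A1.card := by exact_mod_cast h3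
    calc (A.card : ℝ) ≤ M * ((Bx x).card * S.card) := hbig
      _ ≤ M * ((Bx x).card * (L * S1.card)) :=
        mul_le_mul_of_nonneg_left (mul_le_mul_of_nonneg_left hm hP0.le) (by linarith)
      _ = M * L * ((Bx x).card * S1.card) := by ring
      _ ≤ M * L * A1.card := mul_le_mul_of_nonneg_left h3' (by positivity)
      _ = 1 * (M * L * A1.card) := by ring
      _ ≤ K * (M * L * A1.card) := mul_le_mul_of_nonneg_right hK1 (by positivity)
      _ = K * M * L * A1.card := by ring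

/-- The conclusion of Q1 for the star-shaped subsets of `ℤ^d × G`. -/
theorem transfer (C : ℝ) : ∃ C' : ℝ, ∀ (G : Type u) [AddCommGroup G] [DecidableEq G],
    (∀ (K : ℝ) (S : Finset G), S.Nonempty → ((S + S).card : ℝ) ≤ K * S.card → Concl C K S) →
    ∀ (d : ℕ) (K : ℝ) (A : Finset ((Fin d → ℤ) × G)), A.Nonempty → Star A →
      ((A + A).card : ℝ) ≤ K * A.card → Concl C' K A := by
  classical
  obtain ⟨n, hn1, hn, hCK⟩ := nat_const C
  obtain ⟨N, hN⟩ : ∃ N : ℕ, N = 20000000 := ⟨_, rfl⟩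
  refine ⟨((5000 * ((N + 1) * (4 ^ n + 1)) ^ 5000 : ℕ) : ℝ), ?_⟩
  intro G _ _ hG d K A hA hS hK
  have hK1 := one_le_K hA hK
  have hK0 : 0 < K := by linarith
  obtain ⟨x, S, hSne, hbox, hle, -⟩ := structure_thm hA hS hK
  rw [← card_Bx, ← hN] at hle
  have hM1 : 1 ≤ K ^ N := one_le_pow₀ hK1
  have hPne : (Bx x).Nonempty := ⟨0, mem_Bx.2 (fun i => by unfold Btw; simp; omega)⟩
  have hP0 : (0 : ℝ) < (Bx x).card := by exact_mod_cast hPne.card_pos
  have hsub : Bx x ×ˢ S ⊆ A := by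
    rintro ⟨y, s⟩ hy
    have h := Finset.mem_product.1 hy
    exact hbox y (mem_Bx.1 h.1) s h.2
  -- the doubling of `S`
  have hSS : ((S + S).card : ℝ) ≤ K ^ (N + 1) * S.card := by
    have h1 : ((Bx x + Bx x) ×ˢ (S + S)).card ≤ (A + A).card := by
      refine Finset.card_le_card ?_
      rintro ⟨y, s⟩ hy
      obtain ⟨h1, h2⟩ := Finset.mem_product.1 hy
      obtain ⟨a, ha, b, hb, hab⟩ := Finset.mem_add.1 h1
      obtain ⟨p, hp, q, hq, hpq⟩ := Finset.mem_add.1 h2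
      simp only at hab hpq
      rw [← hab, ← hpq]
      exact Finset.mem_add.2 ⟨(a, p), hsub (Finset.mem_product.2 ⟨ha, hp⟩), (b, q),
        hsub (Finset.mem_product.2 ⟨hb, hq⟩), rfl⟩
    rw [Finset.card_product] at h1
    have h2 : (Bx x).card ≤ (Bx x + Bx x).card := Finset.card_le_card_add_right hPne
    have h3 : (Bx x).card * (S + S).card ≤ (A + A).card :=
      (Nat.mul_le_mul_right _ h2).trans h1
    have h4 : (((S + S).card : ℝ)) * (Bx x).card ≤ (K ^ (N + 1) * S.card) * (Bx x).card := by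
      calc (((S + S).card : ℝ)) * (Bx x).card = (((Bx x).card * (S + S).card : ℕ) : ℝ) := by
            push_cast; ring
        _ ≤ (A + A).card := by exact_mod_cast h3
        _ ≤ K * A.card := hK
        _ ≤ K * (K ^ N * ((Bx x).card * S.card)) := mul_le_mul_of_nonneg_left hle (by linarith)
        _ = (K ^ (N + 1) * S.card) * (Bx x).card := by ring
    exact le_of_mul_le_mul_right h4 hP0
  obtain ⟨e, X, ψ, H, g, hD⟩ := data_of_concl hn1 hn hCK hSne hSS (hG _ S hSne hSS)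
  have hL1 : (1 : ℝ) ≤ ((4 ^ n : ℕ) : ℝ) * (K ^ (N + 1)) ^ (4 ^ n : ℕ) := by
    have e1 : (1 : ℝ) ≤ ((4 ^ n : ℕ) : ℝ) := by exact_mod_cast Nat.one_le_pow _ _ (by norm_num)
    have e2 : (1 : ℝ) ≤ (K ^ (N + 1)) ^ (4 ^ n : ℕ) := one_le_pow₀ (one_le_pow₀ hK1)
    nlinarith
  obtain ⟨ψ', H', g', hD'⟩ := data_prd hK1 hM1 hL1 hK hSne hbox hle hD
  have hn' : 1 ≤ (N + 1) * (4 ^ n + 1) := Nat.one_le_iff_ne_zero.2 (by positivity)
  refine concl_of_data hn' hA hK (hD'.mono ?_)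
  have e1 : (((4 ^ n : ℕ) : ℝ)) ≤ (((N + 1) * (4 ^ n + 1) : ℕ) : ℝ) := by
    have : 4 ^ n ≤ (N + 1) * (4 ^ n + 1) := by nlinarith [Nat.zero_le N, Nat.zero_le (4 ^ n)]
    exact_mod_cast this
  calc K * K ^ N * (((4 ^ n : ℕ) : ℝ) * (K ^ (N + 1)) ^ (4 ^ n : ℕ))
      = ((4 ^ n : ℕ) : ℝ) * K ^ ((N + 1) * (4 ^ n + 1)) := by
        rw [← pow_mul, ← pow_succ', mul_add, mul_one, pow_add]
        ring
    _ ≤ (((N + 1) * (4 ^ n + 1) : ℕ) : ℝ) * K ^ ((N + 1) * (4 ^ n + 1)) :=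
        mul_le_mul_of_nonneg_right e1 (by positivity)

/-- The conclusion of Q1 in the groups of exponent `m`. -/
theorem torsion_concl (m : ℕ) (hm : 0 < m) : ∃ C : ℝ, ∀ (G : Type u) [AddCommGroup G] [DecidableEq G],
    (∀ g : G, m • g = 0) →
    ∀ (K : ℝ) (S : Finset G), S.Nonempty → ((S + S).card : ℝ) ≤ K * S.card → Concl C K S := by
  obtain ⟨E, hE⟩ : ∃ E : ℕ, E = 41005 * (Nat.log 2 m + 1) := ⟨_, rfl⟩
  refine ⟨((2 ^ E : ℕ) : ℝ), ?_⟩
  intro G _ _ hG K S hS hK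
  have hK1 := one_le_K hS hK
  have hK0 : 0 < K := by linarith
  obtain ⟨H, T, hfin, hcard, hT, hcov⟩ := Pool.Agent.TH404.Tor.upper m hm hG K S hS hK
  rw [← hE] at hT
  refine ⟨0, Set.univ, 0, H, T, ?_, ⟨convex_univ, isCompact_univ, ?_, fun _ _ => Set.mem_univ _⟩,
    hfin, ?_, ?_, ?_⟩
  · rw [Nat.cast_zero]
    exact mul_nonneg (Nat.cast_nonneg _) (Real.log_nonneg (by linarith))
  · rw [interior_univ]
    exact Set.univ_nonempty
  · have h1 : lat (Set.univ : Set (Fin 0 → ℝ)) = Set.univ := by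
      ext v
      exact ⟨fun _ => Set.mem_univ _, fun _ => Set.mem_univ _⟩
    rw [h1, Set.ncard_univ, Nat.card_unique, one_mul]
    exact hcard
  · calc (T.card : ℝ) ≤ (2 * K) ^ E := hT
      _ = ((2 ^ E : ℕ) : ℝ) * K ^ E := by rw [mul_pow]; push_cast; ring
      _ ≤ ((2 ^ E : ℕ) : ℝ) * K ^ ((2 ^ E : ℕ) : ℝ) := by
        refine mul_le_mul_of_nonneg_left ?_ (Nat.cast_nonneg _)
        exact pow_le_rpow hK1 (by exact_mod_cast Nat.lt_two_pow_self.le)
  · intro a ha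
    obtain ⟨t, ht, h⟩ := hcov a ha
    refine ⟨t, ht, 0, Set.mem_univ _, a - t, h, ?_⟩
    simp

end Pool.Agent.R92.Star
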