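import Pool.Agent.R92.Star.Two

set_option autoImplicit false
set_option linter.unusedSectionVars false

/-! A lower bound for the doubling of unimodal laws which are not concentrated at `0`. -/

namespace Pool.Agent.R92.Star

open H112 Finset

/-- mass of `[0, k)` -/
noncomputable def th (p : AddMonoidAlgebra ℝ ℤ) (k : ℕ) : ℝ := ∑ n ∈ Finset.range k, p.coeff (n : ℤ)

theorem sum_Ico_shift (f : ℤ → ℝ) (a b x : ℤ) :
    ∑ y ∈ Finset.Ico (a + x) (b + x), f (y - x) = ∑ t ∈ Finset.Ico a b, f t := by
  apply Finset.sum_nbij' (fun y => y - x) (fun t => t + x)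
  · intro y hy; rw [Finset.mem_Ico] at *; omega
  · intro y hy; rw [Finset.mem_Ico] at *; omega
  · intro y _; simp
  · intro y _; simp
  · intro y _; rfl

theorem th_eq (p : AddMonoidAlgebra ℝ ℤ) (k : ℕ) :
    th p k = ∑ t ∈ Finset.Ico (0 : ℤ) k, p.coeff t := by
  unfold th
  apply Finset.sum_nbij' (fun n : ℕ => (n : ℤ)) (fun t : ℤ => t.toNat)
  · intro n hn; rw [Finset.mem_range] at hn; rw [Finset.mem_Ico]; omega
  · intro t ht; rw [Finset.mem_Ico] at ht; rw [Finset.mem_range]; omega
  · intro n _; simp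
  · intro t ht; rw [Finset.mem_Ico] at ht; exact Int.toNat_of_nonneg ht.1
  · intro n _; rfl

section

variable {p : AddMonoidAlgebra ℝ ℤ} (hp : Law p)

include hp in
theorem shift_bound {D : ℤ → ℝ}
    (hD : ∀ x ∈ p.coeff.support, ∀ s : Finset ℤ,
        ∑ y ∈ s, |p.coeff (y - x) - (p * p).coeff y| ≤ 2 * Real.sqrt (D x))
    {x x' : ℤ} (hx : x ∈ p.coeff.support) (hx' : x' ∈ p.coeff.support) (k : ℕ)
    (hk : x + k ≤ x') : th p k ≤ 2 * Real.sqrt (D x) + 2 * Real.sqrt (D x') := by
  classical
  obtain ⟨N, hN0, hN⟩ : ∃ N : ℤ, 0 ≤ N ∧ ∀ t, t < -N → p.coeff t = 0 := by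
    refine ⟨∑ t ∈ p.coeff.support, |t|, Finset.sum_nonneg fun t _ => abs_nonneg t, ?_⟩
    intro t ht
    by_contra hc
    have hm : t ∈ p.coeff.support := Finsupp.mem_support_iff.mpr hc
    have := Finset.single_le_sum (f := fun t : ℤ => |t|) (fun t _ => abs_nonneg t) hm
    have h2 := neg_abs_le t
    omega
  set s := Finset.Ico (x - N) x' with hs
  have h1 := hD x hx s
  have h2 := hD x' hx' s
  have e1 : ∑ y ∈ s, p.coeff (y - x) = ∑ t ∈ Finset.Ico (-N) (x' - x), p.coeff t := by
    rw [← sum_Ico_shift (fun t => p.coeff t) (-N) (x' - x) x, hs]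
    congr 2 <;> ring
  have e2 : ∑ y ∈ s, p.coeff (y - x') = ∑ t ∈ Finset.Ico (x - N - x') 0, p.coeff t := by
    rw [← sum_Ico_shift (fun t => p.coeff t) (x - N - x') 0 x', hs]
    congr 2 <;> ring
  have e3 : ∑ t ∈ Finset.Ico (x - N - x') 0, p.coeff t = ∑ t ∈ Finset.Ico (-N) 0, p.coeff t := by
    symm
    apply Finset.sum_subset
    · apply Finset.Ico_subset_Ico_left; omega
    · intro t ht ht'
      rw [Finset.mem_Ico] at ht ht'
      apply hN; omega
  have e4 : ∑ t ∈ Finset.Ico (-N) (x' - x), p.coeff t =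
      ∑ t ∈ Finset.Ico (-N) 0, p.coeff t + ∑ t ∈ Finset.Ico 0 (x' - x), p.coeff t := by
    rw [← Finset.sum_union]
    · apply Finset.sum_congr _ fun _ _ => rfl
      rw [Finset.Ico_union_Ico_eq_Ico (by omega) (by omega)]
    · exact Finset.Ico_disjoint_Ico_consecutive _ _ _
  have e5 : th p k ≤ ∑ t ∈ Finset.Ico 0 (x' - x), p.coeff t := by
    rw [th_eq]
    apply Finset.sum_le_sum_of_subset_of_nonneg
    · apply Finset.Ico_subset_Ico_right; omega
    · intro t _ _; exact hp.1 t
  have h3 : ∑ y ∈ s, (p.coeff (y - x) - p.coeff (y - x')) ≤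
      ∑ y ∈ s, |p.coeff (y - x) - (p * p).coeff y| +
      ∑ y ∈ s, |p.coeff (y - x') - (p * p).coeff y| := by
    rw [← Finset.sum_add_distrib]
    apply Finset.sum_le_sum
    intro y _
    have a1 := le_abs_self (p.coeff (y - x) - (p * p).coeff y)
    have a2 := neg_abs_le (p.coeff (y - x') - (p * p).coeff y)
    linarith
  rw [Finset.sum_sub_distrib, e1, e2, e3, e4] at h3
  linarith

include hp in
/-- the product estimate -/
theorem sg_ge_pairs (X Y : Finset ℤ) (hX : X ⊆ p.coeff.support) (hY : Y ⊆ p.coeff.support)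
    (k : ℕ) (hXY : ∀ x ∈ X, ∀ y ∈ Y, x + k ≤ y ∨ y + k ≤ x) :
    th p k ^ 2 * ((∑ x ∈ X, p.coeff x) * (∑ y ∈ Y, p.coeff y)) ≤ 16 * sg p := by
  classical
  obtain ⟨D, hD0, hDs, hDb⟩ := kl_decomp hp hp
  have hth : 0 ≤ th p k := Finset.sum_nonneg fun n _ => hp.1 _
  have hDs' : ∑ x ∈ p.coeff.support, p.coeff x * D x = sg p := hDs
  have hpt : ∀ x ∈ X, ∀ y ∈ Y, th p k ^ 2 ≤ 8 * (D x + D y) := by
    intro x hx y hy
    have h1 : th p k ≤ 2 * Real.sqrt (D x) + 2 * Real.sqrt (D y) := by
      rcases hXY x hx y hy with h | h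
      · exact shift_bound hp hDb (hX hx) (hY hy) k h
      · have := shift_bound hp hDb (hY hy) (hX hx) k h
        linarith
    have s1 := Real.sqrt_nonneg (D x)
    have s2 := Real.sqrt_nonneg (D y)
    have q1 := Real.sq_sqrt (hD0 x)
    have q2 := Real.sq_sqrt (hD0 y)
    have h2 : th p k ^ 2 ≤ (2 * Real.sqrt (D x) + 2 * Real.sqrt (D y)) ^ 2 :=
      pow_le_pow_left₀ hth h1 2
    nlinarith [sq_nonneg (Real.sqrt (D x) - Real.sqrt (D y))]
  have hPX : ∑ x ∈ X, p.coeff x ≤ 1 := sum_inj_le hp X id Function.injective_id.injOn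
  have hPY : ∑ y ∈ Y, p.coeff y ≤ 1 := sum_inj_le hp Y id Function.injective_id.injOn
  have hDX : ∑ x ∈ X, p.coeff x * D x ≤ sg p := by
    rw [← hDs']
    exact Finset.sum_le_sum_of_subset_of_nonneg hX fun x _ _ => mul_nonneg (hp.1 x) (hD0 x)
  have hDY : ∑ x ∈ Y, p.coeff x * D x ≤ sg p := by
    rw [← hDs']
    exact Finset.sum_le_sum_of_subset_of_nonneg hY fun x _ _ => mul_nonneg (hp.1 x) (hD0 x)
  have hsg := sg_nonneg hp
  have hPX0 : 0 ≤ ∑ x ∈ X, p.coeff x := Finset.sum_nonneg fun x _ => hp.1 x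
  have hPY0 : 0 ≤ ∑ y ∈ Y, p.coeff y := Finset.sum_nonneg fun x _ => hp.1 x
  calc th p k ^ 2 * ((∑ x ∈ X, p.coeff x) * (∑ y ∈ Y, p.coeff y))
      = ∑ x ∈ X, ∑ y ∈ Y, p.coeff x * p.coeff y * th p k ^ 2 := by
        rw [Finset.sum_mul_sum, Finset.mul_sum]
        apply Finset.sum_congr rfl
        intro x _
        rw [Finset.mul_sum]
        apply Finset.sum_congr rfl
        intro y _
        ring
    _ ≤ ∑ x ∈ X, ∑ y ∈ Y, p.coeff x * p.coeff y * (8 * (D x + D y)) := by
        apply Finset.sum_le_sum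
        intro x hx
        apply Finset.sum_le_sum
        intro y hy
        exact mul_le_mul_of_nonneg_left (hpt x hx y hy) (mul_nonneg (hp.1 _) (hp.1 _))
    _ = 8 * ((∑ x ∈ X, p.coeff x * D x) * (∑ y ∈ Y, p.coeff y) +
          (∑ x ∈ X, p.coeff x) * (∑ y ∈ Y, p.coeff y * D y)) := by
        rw [Finset.sum_mul_sum, Finset.sum_mul_sum, mul_add, Finset.mul_sum, Finset.mul_sum,
          ← Finset.sum_add_distrib]
        apply Finset.sum_congr rfl
        intro x _
        rw [Finset.mul_sum, Finset.mul_sum, ← Finset.sum_add_distrib]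
        apply Finset.sum_congr rfl
        intro y _
        ring
    _ ≤ 16 * sg p := by
        have a1 : (∑ x ∈ X, p.coeff x * D x) * (∑ y ∈ Y, p.coeff y) ≤ sg p * 1 :=
          mul_le_mul hDX hPY hPY0 hsg
        have a2 : (∑ x ∈ X, p.coeff x) * (∑ y ∈ Y, p.coeff y * D y) ≤ 1 * sg p :=
          mul_le_mul hPX hDY (Finset.sum_nonneg fun x _ => mul_nonneg (hp.1 x) (hD0 x))
            zero_le_one
        linarith

end

theorem th_block {p : AddMonoidAlgebra ℝ ℤ}
    (hmono : ∀ s t : ℤ, 0 ≤ s → s ≤ t → p.coeff t ≤ p.coeff s) (c j : ℕ) :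
    th p (c * j) ≤ c * th p j := by
  induction c with
  | zero => simp [th]
  | succ c ih =>
    have h1 : th p ((c + 1) * j) = th p (c * j) +
        ∑ i ∈ Finset.range j, p.coeff (((c * j + i : ℕ) : ℤ)) := by
      unfold th
      rw [add_mul, one_mul, Finset.sum_range_add]
    have h2 : ∑ i ∈ Finset.range j, p.coeff (((c * j + i : ℕ) : ℤ)) ≤ th p j := by
      unfold th
      apply Finset.sum_le_sum
      intro i _
      apply hmono _ _ (by positivity)
      push_cast
      have : (0 : ℤ) ≤ (c : ℤ) * j := by positivity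
      linarith
    rw [h1]
    have h3 : ((c + 1 : ℕ) : ℝ) = (c : ℝ) + 1 := by push_cast; ring
    rw [h3]
    linarith

theorem th_mono {p : AddMonoidAlgebra ℝ ℤ} (hp : Law p) {a b : ℕ} (hab : a ≤ b) :
    th p a ≤ th p b := by
  unfold th
  exact Finset.sum_le_sum_of_subset_of_nonneg (Finset.range_subset_range.mpr hab)
    fun n _ _ => hp.1 _

/-- the lower bound, when at least half of the mass is on the right -/
theorem sg_lower_half {p : AddMonoidAlgebra ℝ ℤ} (hp : Law p)
    (hu : Uni p) (h0 : p.coeff 0 ≤ 7 / 8)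
    (hhalf : 1 / 2 ≤ ∑ t ∈ p.coeff.support.filter (fun t => 0 ≤ t), p.coeff t) :
    1 / 400000 ≤ sg p := by
  classical
  have hmono := hu.1
  -- a large initial segment
  have hsegm : ∀ N : ℕ, (∀ t ∈ p.coeff.support, t < N) →
      th p N = ∑ t ∈ p.coeff.support.filter (fun t => 0 ≤ t), p.coeff t := by
    intro N hN
    rw [th_eq]
    symm
    apply Finset.sum_subset
    · intro t ht
      rw [Finset.mem_filter] at ht
      rw [Finset.mem_Ico]
      exact ⟨ht.2, hN t ht.1⟩
    · intro t ht ht'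
      rw [Finset.mem_Ico] at ht
      rw [Finset.mem_filter] at ht'
      by_contra hc
      exact ht' ⟨Finsupp.mem_support_iff.mpr hc, ht.1⟩
  obtain ⟨N, hN⟩ : ∃ N : ℕ, ∀ t ∈ p.coeff.support, t < N := by
    refine ⟨(∑ t ∈ p.coeff.support, |t|).toNat + 1, ?_⟩
    intro t ht
    have := Finset.single_le_sum (f := fun t : ℤ => |t|) (fun t _ => abs_nonneg t) ht
    have h2 := le_abs_self t
    omega
  have hex : ∃ m : ℕ, 1 / 8 ≤ th p m := ⟨N, by rw [hsegm N hN]; linarith⟩
  set m := Nat.find hex with hm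
  have hm1 : 1 / 8 ≤ th p m := Nat.find_spec hex
  have hmlt : ∀ j, j < m → th p j < 1 / 8 := by
    intro j hj
    have := Nat.find_min hex hj
    push Not at this
    exact this
  have hth1 : th p 1 = p.coeff 0 := by simp [th]
  have hmpos : m ≠ 0 := by
    intro h
    rw [h] at hm1
    simp [th] at hm1
    linarith
  rcases Nat.lt_or_ge 1 m with h2 | h2
  · -- spread out
    have hlt := hmlt (m - 1) (by omega)
    have hp0 : p.coeff 0 < 1 / 8 := by
      rw [← hth1]
      exact lt_of_le_of_lt (th_mono hp (by omega)) hlt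
    have hmle : th p m ≤ 1 / 4 := by
      have : th p m = th p (m - 1) + p.coeff ((m - 1 : ℕ) : ℤ) := by
        unfold th
        conv_lhs => rw [show m = (m - 1) + 1 by omega]
        rw [Finset.sum_range_succ]
      have h3 := le_zero hu ((m - 1 : ℕ) : ℤ)
      linarith
    set j := m / 2 with hj
    set k := m - j with hk
    have hj3 : 1 / 24 ≤ th p j := by
      have h3 := th_block hmono 3 j
      have h4 : th p m ≤ th p (3 * j) := th_mono hp (by omega)
      push_cast at h3
      linarith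
    have hk2 : 1 / 16 ≤ th p k := by
      have h3 := th_block hmono 2 k
      have h4 : th p m ≤ th p (2 * k) := th_mono hp (by omega)
      push_cast at h3
      linarith
    set X : Finset ℤ := p.coeff.support.filter (fun t => 0 ≤ t ∧ t < (j : ℤ)) with hX
    set Y := p.coeff.support.filter (fun t => (m : ℤ) ≤ t) with hY
    have hPX : ∑ x ∈ X, p.coeff x = th p j := by
      rw [th_eq]
      apply Finset.sum_subset
      · intro t ht
        rw [hX, Finset.mem_filter] at ht
        rw [Finset.mem_Ico]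
        exact ht.2
      · intro t ht ht'
        rw [Finset.mem_Ico] at ht
        rw [hX, Finset.mem_filter] at ht'
        by_contra hc
        exact ht' ⟨Finsupp.mem_support_iff.mpr hc, ht⟩
    have hPY : 1 / 4 ≤ ∑ y ∈ Y, p.coeff y := by
      have h3 : ∑ t ∈ p.coeff.support.filter (fun t => 0 ≤ t), p.coeff t ≤
          ∑ t ∈ Finset.Ico (0 : ℤ) m, p.coeff t + ∑ y ∈ Y, p.coeff y := by
        calc ∑ t ∈ p.coeff.support.filter (fun t => 0 ≤ t), p.coeff t
            ≤ ∑ t ∈ Finset.Ico (0 : ℤ) m ∪ Y, p.coeff t := by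
              apply Finset.sum_le_sum_of_subset_of_nonneg
              · intro t ht
                rw [Finset.mem_filter] at ht
                rw [Finset.mem_union, Finset.mem_Ico, hY, Finset.mem_filter]
                rcases lt_or_ge t (m : ℤ) with h | h
                · left; exact ⟨ht.2, h⟩
                · right; exact ⟨ht.1, h⟩
              · intro t _ _; exact hp.1 t
          _ ≤ _ := by
              rw [← Finset.sum_union_inter]
              have : 0 ≤ ∑ t ∈ Finset.Ico (0 : ℤ) m ∩ Y, p.coeff t :=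
                Finset.sum_nonneg fun t _ => hp.1 t
              linarith
      rw [← th_eq] at h3
      linarith
    have hmain := sg_ge_pairs hp X Y (Finset.filter_subset _ _) (Finset.filter_subset _ _) k (by
      intro x hx y hy
      rw [hX, Finset.mem_filter] at hx
      rw [hY, Finset.mem_filter] at hy
      left
      omega)
    rw [hPX] at hmain
    have h5 : (1 / 16 : ℝ) ^ 2 * (1 / 24 * (1 / 4)) ≤
        th p k ^ 2 * (th p j * ∑ y ∈ Y, p.coeff y) := by
      apply mul_le_mul
      · exact pow_le_pow_left₀ (by norm_num) hk2 2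
      · exact mul_le_mul hj3 hPY (by norm_num) (by linarith)
      · norm_num
      · positivity
    norm_num at h5
    linarith
  · have hm1' : m = 1 := by omega
    rw [hm1', hth1] at hm1
    set Y := p.coeff.support.erase 0 with hY
    have h0S : (0 : ℤ) ∈ p.coeff.support := by
      rw [Finsupp.mem_support_iff]; intro h; rw [h] at hm1; norm_num at hm1
    have hPY : ∑ y ∈ Y, p.coeff y = 1 - p.coeff 0 := by
      have := Finset.add_sum_erase _ (fun t => p.coeff t) h0S
      rw [hp.sum_eq] at this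
      linarith
    have hmain := sg_ge_pairs hp {0} Y (Finset.singleton_subset_iff.mpr h0S)
      (Finset.erase_subset _ _) 1 (by
      intro x hx y hy
      rw [Finset.mem_singleton] at hx
      rw [hY, Finset.mem_erase] at hy
      have := hy.1
      push_cast
      omega)
    rw [Finset.sum_singleton, hPY, hth1] at hmain
    have h5 : (1 / 8 : ℝ) ^ 2 * (1 / 8 * (1 / 8)) ≤ p.coeff 0 ^ 2 * (p.coeff 0 * (1 - p.coeff 0)) := by
      apply mul_le_mul
      · exact pow_le_pow_left₀ (by norm_num) hm1 2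
      · exact mul_le_mul hm1 (by linarith) (by norm_num) (by linarith)
      · norm_num
      · positivity
    norm_num at h5
    linarith

theorem sg_refl {p : AddMonoidAlgebra ℝ ℤ} : sg (refl p) = sg p := by
  unfold sg
  rw [← refl_mul, H_refl, H_refl]

theorem uni_refl {p : AddMonoidAlgebra ℝ ℤ} (hu : Uni p) : Uni (refl p) := by
  constructor
  · intro s t hs hst
    rw [refl_apply, refl_apply]
    exact hu.2 _ _ (by omega) (by omega)
  · intro s t hst hs
    rw [refl_apply, refl_apply]
    exact hu.1 _ _ (by omega) (by omega)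

theorem sg_lower {p : AddMonoidAlgebra ℝ ℤ} (hp : Law p) (hu : Uni p) (h0 : p.coeff 0 ≤ 7 / 8) :
    1 / 400000 ≤ sg p := by
  classical
  rcases le_total (1 / 2) (∑ t ∈ p.coeff.support.filter (fun t => 0 ≤ t), p.coeff t) with h | h
  · exact sg_lower_half hp hu h0 h
  · rw [← sg_refl]
    apply sg_lower_half hp.refl (uni_refl hu)
    · rw [refl_apply, neg_zero]; exact h0
    · have h1 := Finset.sum_filter_add_sum_filter_not p.coeff.support (fun t => 0 ≤ t)
        (fun t => p.coeff t)
      rw [hp.sum_eq] at h1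
      have h2 : ∑ t ∈ p.coeff.support.filter (fun t => ¬ 0 ≤ t), p.coeff t ≤
          ∑ t ∈ (refl p).coeff.support.filter (fun t => 0 ≤ t), (refl p).coeff t := by
        have hinj : Set.InjOn (fun t : ℤ => -t) (p.coeff.support.filter (fun t => ¬ 0 ≤ t)) :=
          neg_injective.injOn
        have e1 : ∑ t ∈ p.coeff.support.filter (fun t => ¬ 0 ≤ t), p.coeff t =
            ∑ t ∈ (p.coeff.support.filter (fun t => ¬ 0 ≤ t)).image (fun t : ℤ => -t),
              (refl p).coeff t := by
          rw [Finset.sum_image hinj]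
          apply Finset.sum_congr rfl
          intro t _
          rw [refl_apply, neg_neg]
        rw [e1]
        apply Finset.sum_le_sum_of_subset_of_nonneg
        · intro t ht
          obtain ⟨u, hu1, rfl⟩ := Finset.mem_image.mp ht
          rw [Finset.mem_filter] at hu1 ⊢
          refine ⟨?_, by omega⟩
          rw [Finsupp.mem_support_iff, refl_apply, neg_neg]
          exact Finsupp.mem_support_iff.mp hu1.1
        · intro t _ _; exact hp.refl.1 t
      linarith

end Pool.Agent.R92.Star
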